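import Pool.Agent.Helper30.S1.Exists
import Pool.Agent.Helper12.S1.Planar
import Pool.Agent.Helper59.Pack.Chain
import Pool.Agent.Helper26.ML.Inv
import Pool.Agent.Helper63.ML.GeoQ

/-!
# Every convex body in space has lattice packings of density at least `1/4`

A direction of projection with the structure `S1` has a planar packing lattice of density at least
`3/4`; the volume of a convex body is at least a third of the area of the projection times the largest
length of a section.
-/

set_option autoImplicit false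
namespace Pool.Agent.Helper18.DLH
open MeasureTheory Metric
open Pool.Agent.Helper59.Pack Pool.Agent.Helper69.MD Pool.Agent.Helper63.ML
open Pool.Agent.Helper12.S1
open scoped ENNReal Pointwise

theorem deltaL_quarter {K : Set E3} (hK : IsConvexBody K) :
    ENNReal.ofReal (1 / 4) ≤ deltaL K := by
  obtain ⟨g, c, p, r, a, hS⟩ := Pool.Agent.Helper30.S1.exists_S1 hK
  rw [← deltaL_image g K]
  have hK' := body_image hK g
  obtain ⟨y₀, hy0, hmax⟩ := exists_max hK'
  have hQc := proj_convex hK'
  have hQk := proj_compact hK'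
  have hfin : volume (proj (g '' K)) ≠ ⊤ := hQk.measure_lt_top.ne
  obtain ⟨t₁, t₂, hdet, hle, hpack⟩ := latt hQc hQk hS
  rw [ENNReal.ofReal_le_iff_le_toReal hfin] at hle
  have hpack' : PlanarPacking (g '' K) t₁ t₂ := by
    intro m n hmn x hx y hy
    exact hpack m n hmn _ (pr_interior hx) _ (pr_interior hy)
  let d : LatData := ⟨t₁, t₂, 0, 0, len (g '' K) y₀, hdet, hy0⟩
  refine le_trans ?_ (deltaL_ge hK' d hpack' hmax)
  change _ ≤ volume (g '' K) / ENNReal.ofReal (len (g '' K) y₀ * det2 t₁ t₂)
  have hHD : 0 < len (g '' K) y₀ * det2 t₁ t₂ := mul_pos hy0 hdet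
  rw [ENNReal.le_div_iff_mul_le (Or.inl (ENNReal.ofReal_pos.2 hHD).ne')
    (Or.inl ENNReal.ofReal_ne_top), ← ENNReal.ofReal_mul (by norm_num)]
  have h1 := kappa_ge hK' rfl hy0
  rw [le_div_iff₀ hy0] at h1
  rw [← ENNReal.ofReal_toReal hK'.isCompact.measure_lt_top.ne]
  apply ENNReal.ofReal_le_ofReal
  have h2 := mul_le_mul_of_nonneg_left hle hy0.le
  linarith

/-- `m_L ≥ 1/4`. -/
theorem mL_quarter : 1 / 4 ≤ mL := by
  have h4 : ENNReal.ofReal (1 / 4) = 1 / 4 := by
    rw [ENNReal.ofReal_div_of_pos (by norm_num)]; simp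
  unfold mL
  exact le_iInf fun K => le_iInf fun hK => h4 ▸ deltaL_quarter hK

end Pool.Agent.Helper18.DLH
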